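import Mathlib

/-!
# MP_f664e7_co: a cyclic shuffle-compatible statistic that is not a cyclic descent statistic

The statistic is the sign of the permutation when its length is odd, and `0` when it is even.
-/

set_option autoImplicit false

open scoped Classical

namespace Pool.Agent.Results.MP_f664e7_co.Parity

/-- Two words have the same relative order (their standardizations agree). -/
def SameOrder (π σ : List ℕ+) : Prop :=
  π.length = σ.length ∧ ∀ (i j : ℕ) (hi : i < π.length) (hj : j < π.length) (hi' : i < σ.length)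
    (hj' : j < σ.length), π[i] < π[j] ↔ σ[i] < σ[j]

/-- A function on cycles is a cyclic permutation statistic if it only depends on the relative
order. (A permutation is a word `π : List ℕ+` without repeated letters, `(π : Cycle ℕ+)` is the
cyclic permutation `[π]`.) -/
def IsCyclicStat {X : Type} (cst : Cycle ℕ+ → X) : Prop :=
  ∀ π σ : List ℕ+, π.Nodup → σ.Nodup → SameOrder π σ → cst π = cst σ

/-- The set of cyclic shuffles of `[π]` and `[σ]`. -/
def shuffles (π σ : List ℕ+) : Set (Cycle ℕ+) :=
  {c | ∃ τ : List ℕ+, (τ : Cycle ℕ+) = c ∧ τ.Nodup ∧ τ.length = π.length + σ.length ∧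
    (∃ π' : List ℕ+, π'.IsRotated π ∧ π'.Sublist τ) ∧
    (∃ σ' : List ℕ+, σ'.IsRotated σ ∧ σ'.Sublist τ)}

/-- Cyclic shuffle-compatibility: the distribution (the multiplicity of every value `x`) of `cst`
over the cyclic shuffles of `[π]` and `[σ]` depends only on the values of `cst` and the lengths. -/
def ShuffleCompatible {X : Type} (cst : Cycle ℕ+ → X) : Prop :=
  ∀ π σ π' σ' : List ℕ+, π.Nodup → σ.Nodup → π'.Nodup → σ'.Nodup →
    π.Disjoint σ → π'.Disjoint σ' → cst π = cst π' → cst σ = cst σ' →
    π.length = π'.length → σ.length = σ'.length →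
    ∀ x : X, {c | c ∈ shuffles π σ ∧ cst c = x}.encard =
      {c | c ∈ shuffles π' σ' ∧ cst c = x}.encard

/-- `cDes π`, the set of `i ∈ {1, …, n}` with `π_i > π_{i+1}`, indices modulo `n`. -/
def cDes (π : List ℕ+) : Finset ℕ :=
  (Finset.Icc 1 π.length).filter (fun i => π.getD (i % π.length) 1 < π.getD (i - 1) 1)

/-- `cDes [π]`, the multiset of the cyclic descent sets of the rotations of `π`. -/
def cDesCyc (π : List ℕ+) : Multiset (Finset ℕ) :=
  (Multiset.range π.length).map (fun k => cDes (π.rotate k))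

/-- A cyclic descent statistic depends only on the length and `cDes [π]`. -/
def IsCyclicDescentStat {X : Type} (cst : Cycle ℕ+ → X) : Prop :=
  ∀ π σ : List ℕ+, π.Nodup → σ.Nodup → π.length = σ.length → cDesCyc π = cDesCyc σ →
    cst π = cst σ

/-! ### the sign of a word -/

noncomputable def sgnF {N : ℕ} (v : Fin N → ℤ) : SignType :=
  SignType.sign (Matrix.vandermonde v).det

theorem sgnF_comp {N : ℕ} (v : Fin N → ℤ) (e : Equiv.Perm (Fin N)) :
    sgnF (v ∘ e) = SignType.sign ((Equiv.Perm.sign e : ℤˣ) : ℤ) * sgnF v := by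
  unfold sgnF
  have h : Matrix.vandermonde (v ∘ e) = (Matrix.vandermonde v).submatrix e id := by
    ext i j; simp [Matrix.vandermonde]
  rw [h, Matrix.det_permute, sign_mul]
  simp

theorem sgnF_ne_zero {N : ℕ} {v : Fin N → ℤ} (hv : Function.Injective v) : sgnF v ≠ 0 := by
  unfold sgnF
  rw [Ne, sign_eq_zero_iff]
  exact Matrix.det_vandermonde_ne_zero_iff.2 hv

theorem sgnF_order {N : ℕ} {v w : Fin N → ℤ} (h : ∀ i j, v i < v j ↔ w i < w j) :
    sgnF v = sgnF w := by
  unfold sgnF
  rw [Matrix.det_vandermonde, Matrix.det_vandermonde]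
  have h1 : ∀ i j, SignType.sign (v j - v i) = SignType.sign (w j - w i) := by
    intro i j
    rcases lt_trichotomy (v i) (v j) with h2 | h2 | h2
    · rw [sign_pos (by omega), sign_pos (by have := (h i j).1 h2; omega)]
    · have h3 : w i = w j := by
        rcases lt_trichotomy (w i) (w j) with h4 | h4 | h4
        · have := (h i j).2 h4; omega
        · exact h4
        · have := (h j i).2 h4; omega
      rw [h2, h3]; simp
    · rw [sign_neg (by omega), sign_neg (by have := (h j i).1 h2; omega)]
  have h2 : ∀ u : Fin N → ℤ, SignType.sign (∏ i, ∏ j ∈ Finset.Ioi i, (u j - u i)) =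
      ∏ i, ∏ j ∈ Finset.Ioi i, SignType.sign (u j - u i) := by
    intro u
    have := map_prod (signHom (α := ℤ)) (fun i => ∏ j ∈ Finset.Ioi i, (u j - u i)) Finset.univ
    rw [signHom_apply] at this
    rw [this]
    apply Finset.prod_congr rfl
    intro i _
    exact map_prod (signHom (α := ℤ)) (fun j => (u j - u i)) (Finset.Ioi i)
  rw [h2, h2]
  simp only [h1]

noncomputable def sgnL (l : List ℕ+) : SignType :=
  sgnF (fun i : Fin l.length => ((l[i.1] : ℕ+) : ℤ))

theorem sgnL_eq (l : List ℕ+) {N : ℕ} (h : l.length = N) (v : Fin N → ℤ)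
    (hv : ∀ (i : ℕ) (hi : i < l.length) (hi' : i < N), v ⟨i, hi'⟩ = ((l[i] : ℕ+) : ℤ)) :
    sgnL l = sgnF v := by
  subst h
  unfold sgnL
  congr 1
  funext i
  exact (hv i.1 i.2 i.2).symm

noncomputable def cstL (l : List ℕ+) : SignType := if Odd l.length then sgnL l else 0

theorem cstL_rotate_one (l : List ℕ+) : cstL (l.rotate 1) = cstL l := by
  unfold cstL
  rw [List.length_rotate]
  split_ifs with h
  · obtain ⟨M, hM⟩ : ∃ M, l.length = M + 1 := ⟨l.length - 1, by have := h.pos; omega⟩
    have h1 : sgnL (l.rotate 1) = sgnF ((fun i : Fin (M + 1) => ((l[i.1]'(by omega) : ℕ+) : ℤ)) ∘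
        finRotate (M + 1)) := by
      apply sgnL_eq _ (by rw [List.length_rotate, hM])
      intro i hi hi'
      simp only [Function.comp]
      rw [List.getElem_rotate]
      have h5 : ((finRotate (M + 1) ⟨i, hi'⟩ : Fin (M + 1)) : ℕ) = (i + 1) % l.length := by
        rw [finRotate_apply, Fin.val_add, hM]
        simp
      simp only [h5]
    have h2 : sgnL l = sgnF (fun i : Fin (M + 1) => ((l[i.1]'(by omega) : ℕ+) : ℤ)) := by
      apply sgnL_eq _ hM
      intro i hi hi'
      rfl
    rw [h1, h2, sgnF_comp, sign_finRotate]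
    have hM2 : Even M := by
      rw [hM] at h
      exact (Nat.odd_add_one.1 h) |> Nat.not_odd_iff_even.1
    rw [Nat.add_sub_cancel, hM2.neg_one_pow]
    simp
  · rfl

theorem cstL_rotate (l : List ℕ+) (k : ℕ) : cstL (l.rotate k) = cstL l := by
  induction k with
  | zero => simp
  | succ k ih => rw [← List.rotate_rotate, cstL_rotate_one, ih]

/-- the statistic -/
noncomputable def cst (c : Cycle ℕ+) : SignType :=
  Quotient.liftOn' c cstL (by
    rintro l l' ⟨k, rfl⟩
    exact (cstL_rotate l k).symm)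

theorem cst_coe (l : List ℕ+) : cst (l : Cycle ℕ+) = cstL l := rfl

theorem sgnL_swap {l : List ℕ+} (hl : l.Nodup) {x y : ℕ+} (hx : x ∈ l) (hy : y ∈ l)
    (hxy : x ≠ y) : sgnL (l.map (Equiv.swap x y)) = - sgnL l := by
  obtain ⟨i, hi, rfl⟩ := List.getElem_of_mem hx
  obtain ⟨j, hj, rfl⟩ := List.getElem_of_mem hy
  have hij : (⟨i, hi⟩ : Fin l.length) ≠ ⟨j, hj⟩ := by
    intro h
    rw [Fin.mk.injEq] at h
    subst h
    exact hxy rfl
  have h1 : sgnL (l.map (Equiv.swap l[i] l[j])) =
      sgnF ((fun k : Fin l.length => ((l[k.1] : ℕ+) : ℤ)) ∘ Equiv.swap ⟨i, hi⟩ ⟨j, hj⟩) := by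
    apply sgnL_eq _ (by rw [List.length_map])
    intro k hk hk'
    simp only [Function.comp, List.getElem_map]
    congr 1
    have h2 : Function.Injective (fun k : Fin l.length => l[k.1]) :=
      List.nodup_iff_injective_get.1 hl
    have := congrFun (h2.swap_comp ⟨i, hi⟩ ⟨j, hj⟩) ⟨k, hk'⟩
    simp only [Function.comp] at this
    rw [← this]
  rw [h1, sgnF_comp, Equiv.Perm.sign_swap hij]
  simp [sgnL]

theorem mem_map_formPerm {l s : List ℕ+} (hs : s ⊆ l) (a : ℕ+) (ha : a ∈ l) :
    a ∈ l.map s.formPerm := by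
  rw [List.mem_map]
  refine ⟨s.formPerm⁻¹ a, ?_, by simp⟩
  by_cases h : a ∈ s
  · apply hs
    rw [← List.formPerm_mem_iff_mem]
    simpa using h
  · have h1 : s.formPerm a = a := List.formPerm_apply_of_notMem h
    have h2 : s.formPerm⁻¹ a = a := by
      rw [Equiv.Perm.inv_eq_iff_eq, h1]
    rwa [h2]

theorem sgnL_formPerm {l : List ℕ+} (hl : l.Nodup) : ∀ s : List ℕ+, s.Nodup → s ⊆ l → s ≠ [] →
    sgnL (l.map s.formPerm) = (-1) ^ (s.length - 1) * sgnL l := by
  intro s
  induction s with
  | nil => intro _ _ h; exact absurd rfl h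
  | cons x s ih =>
    intro hs hsl _
    cases s with
    | nil => simp
    | cons y s =>
      have h1 : l.map (List.formPerm (x :: y :: s)) =
          (l.map (List.formPerm (y :: s))).map (Equiv.swap x y) := by
        rw [List.formPerm_cons_cons, List.map_map]
        rfl
      have hys : y :: s ⊆ l := fun a ha => hsl (List.mem_cons_of_mem _ ha)
      have hxl : x ∈ l := hsl List.mem_cons_self
      have hyl : y ∈ l := hys List.mem_cons_self
      have hxy : x ≠ y := by
        rintro rfl
        exact (List.nodup_cons.1 hs).1 List.mem_cons_self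
      rw [h1, sgnL_swap (hl.map (Equiv.injective _)) (mem_map_formPerm hys x hxl)
        (mem_map_formPerm hys y hyl) hxy, ih (List.nodup_cons.1 hs).2 hys (by simp)]
      simp [pow_succ]

theorem map_formPerm_self {s : List ℕ+} (hs : s.Nodup) : s.map s.formPerm = s.rotate 1 := by
  apply List.ext_getElem
  · simp
  · intro i h1 h2
    rw [List.getElem_map, List.formPerm_apply_getElem _ hs, List.getElem_rotate]

/-! ### shuffles -/

theorem shuffles_comm (π σ : List ℕ+) : shuffles π σ = shuffles σ π := by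
  ext c
  constructor
  · rintro ⟨τ, h1, h2, h3, h4, h5⟩
    exact ⟨τ, h1, h2, by rw [h3, add_comm], h5, h4⟩
  · rintro ⟨τ, h1, h2, h3, h4, h5⟩
    exact ⟨τ, h1, h2, by rw [h3, add_comm], h5, h4⟩

theorem map_shuffles (f : Equiv.Perm ℕ+) {π σ : List ℕ+} {c : Cycle ℕ+} (hc : c ∈ shuffles π σ) :
    c.map f ∈ shuffles (π.map f) (σ.map f) := by
  obtain ⟨τ, rfl, h2, h3, ⟨π', h4, h5⟩, ⟨σ', h6, h7⟩⟩ := hc
  refine ⟨τ.map f, by simp, h2.map f.injective, by simp [h3], ⟨π'.map f, h4.map f, h5.map f⟩,
    ⟨σ'.map f, h6.map f, h7.map f⟩⟩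

theorem map_injective (f : Equiv.Perm ℕ+) : Function.Injective (Cycle.map f) := by
  apply Function.LeftInverse.injective (g := Cycle.map f.symm)
  intro c
  induction c using Quotient.inductionOn' with
  | h l =>
    show Cycle.map f.symm (Cycle.map f (l : Cycle ℕ+)) = l
    simp [Cycle.map_coe]

theorem relabel {π σ π' σ' : List ℕ+} (h1 : π.Nodup) (h2 : σ.Nodup) (h3 : π'.Nodup)
    (h4 : σ'.Nodup) (h5 : π.Disjoint σ) (h6 : π'.Disjoint σ') (h7 : π.length = π'.length)
    (h8 : σ.length = σ'.length) : (shuffles π σ).encard ≤ (shuffles π' σ').encard := by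
  have hl : (π ++ σ).Nodup := List.nodup_append.2 ⟨h1, h2, fun a ha b hb hab => by
    subst hab; exact h5 ha hb⟩
  have hl' : (π' ++ σ').Nodup := List.nodup_append.2 ⟨h3, h4, fun a ha b hb hab => by
    subst hab; exact h6 ha hb⟩
  have hlen : (π ++ σ).length = (π' ++ σ').length := by simp [h7, h8]
  obtain ⟨f, hf⟩ : ∃ f : Equiv.Perm ℕ+, (π ++ σ).map f = π' ++ σ' := by
    have hpre := Equiv.Perm.isMultiplyPretransitive ℕ+ (π ++ σ).length
    let x : Fin (π ++ σ).length ↪ ℕ+ := ⟨(π ++ σ).get, List.nodup_iff_injective_get.1 hl⟩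
    let y : Fin (π ++ σ).length ↪ ℕ+ :=
      ⟨fun i => (π' ++ σ').get (i.cast hlen), fun a b hab => by
        have := List.nodup_iff_injective_get.1 hl' hab
        simpa using this⟩
    obtain ⟨f, hf⟩ := hpre.exists_smul_eq x y
    refine ⟨f, ?_⟩
    apply List.ext_getElem
    · simp [h7, h8]
    · intro i hi hi'
      have := DFunLike.congr_fun hf ⟨i, by simpa using hi⟩
      simp only [x, y] at this
      rw [List.getElem_map]
      exact this
  rw [List.map_append] at hf
  obtain ⟨e1, e2⟩ := List.append_inj hf (by simp [h7])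
  apply Set.encard_le_encard_of_injOn (f := Cycle.map f)
  · intro c hc
    have := map_shuffles f hc
    rwa [e1, e2] at this
  · exact (map_injective f).injOn

theorem relabel_eq {π σ π' σ' : List ℕ+} (h1 : π.Nodup) (h2 : σ.Nodup) (h3 : π'.Nodup)
    (h4 : σ'.Nodup) (h5 : π.Disjoint σ) (h6 : π'.Disjoint σ') (h7 : π.length = π'.length)
    (h8 : σ.length = σ'.length) : (shuffles π σ).encard = (shuffles π' σ').encard :=
  le_antisymm (relabel h1 h2 h3 h4 h5 h6 h7 h8) (relabel h3 h4 h1 h2 h6 h5 h7.symm h8.symm)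

theorem length_of_mem {π σ : List ℕ+} {c : Cycle ℕ+} (hc : c ∈ shuffles π σ) :
    ∃ τ : List ℕ+, (τ : Cycle ℕ+) = c ∧ τ.Nodup ∧ τ.length = π.length + σ.length := by
  obtain ⟨τ, h1, h2, h3, _⟩ := hc
  exact ⟨τ, h1, h2, h3⟩

theorem cst_zero {π σ : List ℕ+} (h : Even (π.length + σ.length)) {c : Cycle ℕ+}
    (hc : c ∈ shuffles π σ) : cst c = 0 := by
  obtain ⟨τ, rfl, _, h3⟩ := length_of_mem hc
  rw [cst_coe, cstL, if_neg]
  rw [h3]
  exact Nat.not_odd_iff_even.2 h

theorem cst_ne_zero {π σ : List ℕ+} (h : Odd (π.length + σ.length)) {c : Cycle ℕ+}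
    (hc : c ∈ shuffles π σ) : cst c ≠ 0 := by
  obtain ⟨τ, rfl, h2, h3⟩ := length_of_mem hc
  rw [cst_coe, cstL, if_pos (by rwa [h3])]
  apply sgnF_ne_zero
  intro a b hab
  have h4 := List.nodup_iff_injective_get.1 h2
  apply h4
  simpa using hab

/-- rotating the letters of `σ`, of even length, reverses the sign -/
theorem flip {π σ : List ℕ+} (h2 : σ.Nodup) (h5 : π.Disjoint σ)
    (hpi : Odd π.length) (hsi : Even σ.length) (hne : σ ≠ []) {c : Cycle ℕ+}
    (hc : c ∈ shuffles π σ) :
    c.map σ.formPerm ∈ shuffles π σ ∧ cst (c.map σ.formPerm) = - cst c := by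
  obtain ⟨τ, rfl, t2, t3, ⟨π', t4, t5⟩, ⟨σ', t6, t7⟩⟩ := hc
  constructor
  · refine ⟨τ.map σ.formPerm, by simp, t2.map (Equiv.injective _), by simp [t3],
      ⟨π', t4, ?_⟩, ⟨σ'.map σ.formPerm, ?_, t7.map _⟩⟩
    · have h8 : π'.map σ.formPerm = π' := by
        conv_rhs => rw [← List.map_id π']
        apply List.map_congr_left
        intro a ha
        rw [id]
        apply List.formPerm_apply_of_notMem
        exact fun hc => h5 (t4.mem_iff.1 ha) hc
      rw [← h8]
      exact t5.map _
    · have h8 := t6.map σ.formPerm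
      rw [map_formPerm_self h2] at h8
      exact h8.trans (List.IsRotated.symm ⟨1, rfl⟩)
  · have hodd : Odd τ.length := by rw [t3]; exact hpi.add_even hsi
    rw [Cycle.map_coe, cst_coe, cst_coe, cstL, cstL, List.length_map, if_pos hodd, if_pos hodd]
    rw [sgnL_formPerm t2 σ h2 ?_ hne]
    · have h9 : Odd (σ.length - 1) := by
        have : 0 < σ.length := List.length_pos_iff.2 hne
        obtain ⟨k, hk⟩ := hsi
        exact ⟨k - 1, by omega⟩
      rw [h9.neg_one_pow]
      simp
    · intro a ha
      exact t7.subset (t6.mem_iff.2 ha)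

theorem half {π σ : List ℕ+} (h2 : σ.Nodup) (h5 : π.Disjoint σ)
    (hpi : Odd π.length) (hsi : Even σ.length) (hne : σ ≠ []) :
    {c | c ∈ shuffles π σ ∧ cst c = 1}.encard = {c | c ∈ shuffles π σ ∧ cst c = -1}.encard := by
  apply le_antisymm
  · apply Set.encard_le_encard_of_injOn (f := Cycle.map σ.formPerm)
    · rintro c ⟨hc, hc'⟩
      obtain ⟨e1, e2⟩ := flip h2 h5 hpi hsi hne hc
      exact ⟨e1, by rw [e2, hc']⟩
    · exact (map_injective _).injOn
  · apply Set.encard_le_encard_of_injOn (f := Cycle.map σ.formPerm)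
    · rintro c ⟨hc, hc'⟩
      obtain ⟨e1, e2⟩ := flip h2 h5 hpi hsi hne hc
      exact ⟨e1, by rw [e2, hc', neg_neg]⟩
    · exact (map_injective _).injOn

theorem half' {π σ : List ℕ+} (h1 : π.Nodup) (h2 : σ.Nodup) (h5 : π.Disjoint σ)
    (hodd : Odd (π.length + σ.length)) (hne : π ≠ []) (hne' : σ ≠ []) :
    {c | c ∈ shuffles π σ ∧ cst c = 1}.encard = {c | c ∈ shuffles π σ ∧ cst c = -1}.encard := by
  rcases Nat.even_or_odd σ.length with h | h
  · exact half h2 h5 (by
      rw [Nat.odd_add] at hodd
      exact hodd.2 h) h hne'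
  · rw [shuffles_comm]
    refine half h1 h5.symm h ?_ hne
    rw [add_comm, Nat.odd_add] at hodd
    exact hodd.1 h

theorem total {π σ : List ℕ+} (hodd : Odd (π.length + σ.length)) :
    (shuffles π σ).encard = {c | c ∈ shuffles π σ ∧ cst c = 1}.encard +
      {c | c ∈ shuffles π σ ∧ cst c = -1}.encard := by
  rw [← Set.encard_union_eq]
  · congr 1
    ext c
    constructor
    · intro hc
      have h1 := cst_ne_zero hodd hc
      rcases h : cst c with _ | _ | _
      · exact absurd h h1
      · exact Or.inr ⟨hc, h⟩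
      · exact Or.inl ⟨hc, h⟩
    · rintro (h | h)
      · exact h.1
      · exact h.1
  · rw [Set.disjoint_left]
    rintro c ⟨_, h1⟩ ⟨_, h2⟩
    rw [h1] at h2
    exact absurd h2 (by decide)

theorem shuffles_nil {σ : List ℕ+} (h : σ.Nodup) : shuffles [] σ = {(σ : Cycle ℕ+)} := by
  ext c
  constructor
  · rintro ⟨τ, rfl, t2, t3, _, ⟨σ', t6, t7⟩⟩
    have h1 : σ' = τ := t7.eq_of_length (by rw [t6.perm.length_eq, t3]; simp)
    subst h1
    exact Quotient.sound t6
  · rintro rfl
    exact ⟨σ, rfl, h, by simp, ⟨[], List.IsRotated.refl _, List.nil_sublist _⟩,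
      ⟨σ, List.IsRotated.refl _, List.Sublist.refl _⟩⟩

theorem enat_half {a b : ℕ∞} (h : a + a = b + b) : a = b := by
  induction a using ENat.recTopCoe with
  | top =>
    induction b using ENat.recTopCoe with
    | top => rfl
    | coe b => exact absurd h (by norm_cast)
  | coe a =>
    induction b using ENat.recTopCoe with
    | top => exact absurd h (by norm_cast)
    | coe b =>
      norm_cast at h ⊢
      omega

theorem compatible : ShuffleCompatible cst := by
  intro π σ π' σ' h1 h2 h3 h4 h5 h6 c1 c2 h7 h8 x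
  rcases Nat.even_or_odd (π.length + σ.length) with he | ho
  · have he' : Even (π'.length + σ'.length) := by rwa [← h7, ← h8]
    by_cases hx : x = 0
    · subst hx
      have e1 : {c | c ∈ shuffles π σ ∧ cst c = 0} = shuffles π σ := by
        ext c; exact ⟨fun h => h.1, fun h => ⟨h, cst_zero he h⟩⟩
      have e2 : {c | c ∈ shuffles π' σ' ∧ cst c = 0} = shuffles π' σ' := by
        ext c; exact ⟨fun h => h.1, fun h => ⟨h, cst_zero he' h⟩⟩
      rw [e1, e2]
      exact relabel_eq h1 h2 h3 h4 h5 h6 h7 h8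
    · have e1 : {c | c ∈ shuffles π σ ∧ cst c = x} = ∅ := by
        ext c
        constructor
        · rintro ⟨h, h'⟩; exact absurd ((cst_zero he h).symm.trans h').symm hx
        · exact fun h => absurd h (Set.notMem_empty _)
      have e2 : {c | c ∈ shuffles π' σ' ∧ cst c = x} = ∅ := by
        ext c
        constructor
        · rintro ⟨h, h'⟩; exact absurd ((cst_zero he' h).symm.trans h').symm hx
        · exact fun h => absurd h (Set.notMem_empty _)
      rw [e1, e2]
  · have ho' : Odd (π'.length + σ'.length) := by rwa [← h7, ← h8]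
    by_cases hpi : π = []
    · subst hpi
      have hpi' : π' = [] := List.length_eq_zero_iff.1 h7.symm
      subst hpi'
      rw [shuffles_nil h2, shuffles_nil h4]
      by_cases hx : cst σ = x
      · have e1 : {c | c ∈ ({(σ : Cycle ℕ+)} : Set (Cycle ℕ+)) ∧ cst c = x} = {(σ : Cycle ℕ+)} := by
          ext c
          exact ⟨fun h => h.1, fun h => ⟨h, by rw [Set.mem_singleton_iff] at h; rw [h, hx]⟩⟩
        have e2 : {c | c ∈ ({(σ' : Cycle ℕ+)} : Set (Cycle ℕ+)) ∧ cst c = x} =
            {(σ' : Cycle ℕ+)} := by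
          ext c
          exact ⟨fun h => h.1, fun h => ⟨h, by rw [Set.mem_singleton_iff] at h; rw [h, ← c2, hx]⟩⟩
        rw [e1, e2, Set.encard_singleton, Set.encard_singleton]
      · have e1 : {c | c ∈ ({(σ : Cycle ℕ+)} : Set (Cycle ℕ+)) ∧ cst c = x} = ∅ := by
          ext c
          constructor
          · rintro ⟨h, h'⟩
            rw [Set.mem_singleton_iff] at h
            rw [h] at h'
            exact absurd h' hx
          · exact fun h => absurd h (Set.notMem_empty _)
        have e2 : {c | c ∈ ({(σ' : Cycle ℕ+)} : Set (Cycle ℕ+)) ∧ cst c = x} = ∅ := by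
          ext c
          constructor
          · rintro ⟨h, h'⟩
            rw [Set.mem_singleton_iff] at h
            rw [h, ← c2] at h'
            exact absurd h' hx
          · exact fun h => absurd h (Set.notMem_empty _)
        rw [e1, e2]
    by_cases hsi : σ = []
    · subst hsi
      have hsi' : σ' = [] := List.length_eq_zero_iff.1 h8.symm
      subst hsi'
      rw [shuffles_comm π, shuffles_comm π', shuffles_nil h1, shuffles_nil h3]
      by_cases hx : cst π = x
      · have e1 : {c | c ∈ ({(π : Cycle ℕ+)} : Set (Cycle ℕ+)) ∧ cst c = x} = {(π : Cycle ℕ+)} := by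
          ext c
          exact ⟨fun h => h.1, fun h => ⟨h, by rw [Set.mem_singleton_iff] at h; rw [h, hx]⟩⟩
        have e2 : {c | c ∈ ({(π' : Cycle ℕ+)} : Set (Cycle ℕ+)) ∧ cst c = x} =
            {(π' : Cycle ℕ+)} := by
          ext c
          exact ⟨fun h => h.1, fun h => ⟨h, by rw [Set.mem_singleton_iff] at h; rw [h, ← c1, hx]⟩⟩
        rw [e1, e2, Set.encard_singleton, Set.encard_singleton]
      · have e1 : {c | c ∈ ({(π : Cycle ℕ+)} : Set (Cycle ℕ+)) ∧ cst c = x} = ∅ := by
          ext c
          constructor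
          · rintro ⟨h, h'⟩
            rw [Set.mem_singleton_iff] at h
            rw [h] at h'
            exact absurd h' hx
          · exact fun h => absurd h (Set.notMem_empty _)
        have e2 : {c | c ∈ ({(π' : Cycle ℕ+)} : Set (Cycle ℕ+)) ∧ cst c = x} = ∅ := by
          ext c
          constructor
          · rintro ⟨h, h'⟩
            rw [Set.mem_singleton_iff] at h
            rw [h, ← c1] at h'
            exact absurd h' hx
          · exact fun h => absurd h (Set.notMem_empty _)
        rw [e1, e2]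
    have hpi' : π' ≠ [] := by
      rintro rfl
      exact hpi (List.length_eq_zero_iff.1 h7)
    have hsi' : σ' ≠ [] := by
      rintro rfl
      exact hsi (List.length_eq_zero_iff.1 h8)
    have a1 := half' h1 h2 h5 ho hpi hsi
    have a2 := half' h3 h4 h6 ho' hpi' hsi'
    have b1 := total ho
    have b2 := total ho'
    rw [relabel_eq h1 h2 h3 h4 h5 h6 h7 h8, b2, ← a1, ← a2] at b1
    have b3 := enat_half b1.symm
    rcases x with _ | _ | _
    · have e1 : {c | c ∈ shuffles π σ ∧ cst c = SignType.zero} = ∅ := by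
        ext c
        constructor
        · rintro ⟨h, h'⟩; exact absurd h' (cst_ne_zero ho h)
        · exact fun h => absurd h (Set.notMem_empty _)
      have e2 : {c | c ∈ shuffles π' σ' ∧ cst c = SignType.zero} = ∅ := by
        ext c
        constructor
        · rintro ⟨h, h'⟩; exact absurd h' (cst_ne_zero ho' h)
        · exact fun h => absurd h (Set.notMem_empty _)
      rw [e1, e2]
    · show {c | c ∈ shuffles π σ ∧ cst c = -1}.encard = {c | c ∈ shuffles π' σ' ∧ cst c = -1}.encard
      rw [← a1, ← a2, b3]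
    · exact b3

theorem stat : IsCyclicStat cst := by
  intro π σ h1 h2 h
  rw [cst_coe, cst_coe, cstL, cstL, ← h.1]
  split_ifs with ho
  · rw [sgnL_eq σ h.1.symm (fun i : Fin π.length => ((σ[i.1]'(by have := h.1; omega) : ℕ+) : ℤ))
      (fun _ _ _ => rfl)]
    unfold sgnL
    apply sgnF_order
    intro i j
    have h3 := h.1
    have := h.2 i.1 j.1 i.2 j.2 (by omega) (by omega)
    simpa using this
  · rfl

theorem sgn_a : sgnL [1, 2, 3, 5, 4] = -1 := by
  rw [sgnL_eq _ (show _ = 5 from rfl) ![1, 2, 3, 5, 4] (by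
    intro i hi hi'
    interval_cases i <;> rfl), sgnF, Matrix.det_vandermonde]
  decide

theorem sgn_b : sgnL [1, 2, 4, 5, 3] = 1 := by
  rw [sgnL_eq _ (show _ = 5 from rfl) ![1, 2, 4, 5, 3] (by
    intro i hi hi'
    interval_cases i <;> rfl), sgnF, Matrix.det_vandermonde]
  decide

/-- There is a cyclic shuffle-compatible cyclic permutation statistic that is not a cyclic descent
statistic. -/
theorem result : ∃ cst : Cycle ℕ+ → SignType,
    IsCyclicStat cst ∧ ShuffleCompatible cst ∧ ¬ IsCyclicDescentStat cst := by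
  refine ⟨cst, stat, compatible, ?_⟩
  intro h
  have h1 := h [1, 2, 3, 5, 4] [1, 2, 4, 5, 3] (by decide) (by decide) rfl (by decide)
  rw [cst_coe, cst_coe, cstL, cstL, if_pos (by decide), if_pos (by decide), sgn_a, sgn_b] at h1
  exact absurd h1 (by decide)

end Pool.Agent.Results.MP_f664e7_co.Parity
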